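import Pool.Agent.ASD.Stmts3
import Pool.Agent.Helper82_ASO.GPR

/-!
# Squad ASD, row GPD: the product of the elements `f_x`, `f_(x'⁻¹)` under the conditions of `L`
-/

open scoped BigOperators

set_option autoImplicit false

noncomputable section

namespace Pool.Agent.PP.SD.H82

open Pool.Agent.Helper51_AWC Pool.Agent.Helper79_WRA Pool.Agent.PP Pool.Agent.PP.KF
open Pool.Agent.PP.K9 Pool.Agent.PP.K9.H97 Pool.Agent.PP.H75 Pool.Agent.PP.T3 Pool.Agent.PP.SO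
open Pool.Agent.PP.SO.H82 (memC conj_of_mem mem_of_conj prod_eq TT_fwd TT_bwd TT_C)

attribute [local instance] Ideal.Quotient.field

theorem rw_mono {V₀ : Type} [CommGroup V₀] {E₀ : Subgroup (MulAut V₀)} {W W' : Subgroup V₀}
    (h : Rw E₀ W) (hle : W ≤ W') : Rw E₀ W' := by
  refine ⟨fun hb => h.1 (le_bot_iff.1 (hb ▸ hle)), fun σ hσ hfix => ?_⟩
  exact h.2 σ hσ fun w hw => hfix w (hle hw)

section blk

variable {V₀ G : Type} [CommGroup V₀] [Group G] [Finite G] {ℓ : ℕ}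
  {M : Ideal (integralClosure ℤ ℂ)} [M.IsMaximal] {E₀ : Subgroup (MulAut V₀)}
  {B : Bk (FF M) V₀ G}

theorem bh_sing [Fact ℓ.Prime] (hM : (ℓ : integralClosure ℤ ℂ) ∈ M) (hB : Sb ℓ M E₀ B)
    (W : Subgroup V₀) (s : G) (hs : ¬ Reg ℓ s) : bh B W s = 0 := by
  classical
  have := Fintype.ofFinite (B.C W)
  unfold bh PP.ext0
  by_cases h : s ∈ B.C W
  · rw [dif_pos h]
    refine K9.H25.eh_sing T3.H62.wbo_ ℓ M hM (fun t : B.C W => B.b W t) (hB.lb W).blk.blk.1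
      ⟨s, h⟩ ?_
    intro h1
    apply hs
    have h2 : orderOf (⟨s, h⟩ : B.C W) = orderOf s := by
      rw [← Subgroup.orderOf_coe]
    have h3 : (orderOf (⟨s, h⟩ : B.C W)).Coprime ℓ := h1
    show (orderOf s).Coprime ℓ
    rw [← h2]
    exact h3
  · rw [dif_neg h]

section count

variable {L : Set (V₀ × V₀ × ℤ)} {x x' : V₀}

/-- the number of the `w` -/
theorem card_TT (fuw : FudStmt) (cjt : CjdStmt) [Fact ℓ.Prime]
    (hM : (ℓ : integralClosure ℤ ℂ) ∈ M) (hℓ : ℓ ≠ 2) [Finite V₀] (hF : Fq ℓ V₀ E₀)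
    (hB : Sb ℓ M E₀ B) (hne : Rw E₀ (p2 L ⊔ Subgroup.zpowers x')) :
    Nat.card {w : G // w ∈ SO.H82.TT B L x x' ∧ H75.cj w (B.b (p2 L ⊔ Subgroup.zpowers x')) =
      B.b (p1 L ⊔ Subgroup.zpowers x)} =
    Nat.card (B.C (p2 L ⊔ Subgroup.zpowers x')) *
      {τ : MulAut V₀ | τ ∈ E₀ ∧ τ x = x' ∧ ∀ s ∈ L, τ (s.1 * x ^ s.2.2) = s.2.1}.ncard := by
  classical
  obtain ⟨W, hW⟩ : ∃ W, W = p1 L ⊔ Subgroup.zpowers x := ⟨_, rfl⟩
  obtain ⟨W', hW'⟩ : ∃ W', W' = p2 L ⊔ Subgroup.zpowers x' := ⟨_, rfl⟩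
  obtain ⟨A, hA⟩ : ∃ A : Set (MulAut V₀),
      A = {τ : MulAut V₀ | τ ∈ E₀ ∧ τ x = x' ∧ ∀ s ∈ L, τ (s.1 * x ^ s.2.2) = s.2.1} := ⟨_, rfl⟩
  have hA' : ∀ τ : MulAut V₀, τ ∈ A ↔ τ ∈ E₀ ∧ τ x = x' ∧
      ∀ s ∈ L, τ (s.1 * x ^ s.2.2) = s.2.1 := by
    intro τ
    rw [hA]
    rfl
  rw [← hW, ← hW', ← hA]
  rw [← hW'] at hne
  have hx' : x' ∈ W' := by
    rw [hW']; exact Subgroup.mem_sup_right (Subgroup.mem_zpowers x')
  have hq : ∀ s ∈ L, s.2.1 ∈ W' := by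
    intro s hs
    rw [hW']
    exact Subgroup.mem_sup_left (Subgroup.subset_closure ⟨s, hs, rfl⟩)
  have hfwd : ∀ w ∈ SO.H82.TT B L x x', ∀ v ∈ W', ∃ u ∈ W, w * B.i v * w⁻¹ = B.i u := by
    intro w hw
    rw [hW, hW']
    exact TT_fwd hw
  have hbwd : ∀ w ∈ SO.H82.TT B L x x', ∀ u ∈ W, ∃ v ∈ W', w * B.i v * w⁻¹ = B.i u := by
    intro w hw
    rw [hW, hW']
    exact TT_bwd hw
  have hAE : ∀ τ : A, (τ : MulAut V₀)⁻¹ ∈ E₀ := by
    intro τ
    exact E₀.inv_mem ((hA' _).1 τ.2).1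
  have hch : ∀ τ : A, ∃ t ∈ Tg B.i.range B.g, ∀ v, t * B.i v * t⁻¹ = B.i ((τ : MulAut V₀)⁻¹ v) :=
    fun τ => hB.sur _ (hAE τ)
  choose t htT ht using hch
  have hkey : ∀ (τ : A) (c : G), c ∈ B.C W' → ∀ v ∈ W',
      (t τ * c) * B.i v * (t τ * c)⁻¹ = B.i ((τ : MulAut V₀)⁻¹ v) := by
    intro τ c hc v hv
    rw [← ht τ v]
    have h1 := conj_of_mem B hc hv
    have h2 : (t τ * c) * B.i v * (t τ * c)⁻¹ = t τ * (c * B.i v * c⁻¹) * (t τ)⁻¹ := by group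
    rw [h2, h1]
  have hTT : ∀ (τ : A) (c : G), c ∈ B.C W' → t τ * c ∈ SO.H82.TT B L x x' := by
    intro τ c hc
    obtain ⟨-, hτx, hτL⟩ := (hA' _).1 τ.2
    constructor
    · rw [hkey τ c hc x' hx', ← hτx]
      rw [MulAut.inv_apply_self]
    · intro s hs
      rw [hkey τ c hc _ (hq s hs), ← hτL s hs, MulAut.inv_apply_self]
  have hmap : ∀ τ : A, W'.map ((τ : MulAut V₀)⁻¹).toMonoidHom = W := by
    intro τ
    have h1 := hTT τ 1 (B.C W').one_mem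
    ext u
    constructor
    · rintro ⟨v, hv, rfl⟩
      obtain ⟨u, hu, e⟩ := hfwd _ h1 v hv
      rw [hkey τ 1 (B.C W').one_mem v hv] at e
      have h2 := hB.inj e
      change (τ : MulAut V₀)⁻¹ v ∈ W
      rw [h2]
      exact hu
    · intro hu
      obtain ⟨v, hv, e⟩ := hbwd _ h1 u hu
      rw [hkey τ 1 (B.C W').one_mem v hv] at e
      exact ⟨v, hv, hB.inj e⟩
  have hcj : ∀ (τ : A) (c : G), c ∈ B.C W' → H75.cj (t τ * c) (B.b W') = B.b W := by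
    intro τ c hc
    rw [← cj_cj, ((hB.lb W').blk.ix).inv hc]
    have h1 := (cjt ℓ M hM hℓ V₀ G E₀ hF B hB _ (hAE τ) (t τ) (htT τ) (ht τ) W').1
    rw [hmap τ] at h1
    exact h1
  have huniq : ∀ σ ∈ E₀, ∀ σ' ∈ E₀, (∀ v ∈ W', σ v = σ' v) → σ = σ' := by
    intro σ hσ σ' hσ' h
    have h2 : σ'⁻¹ * σ = 1 := by
      refine hne.2 _ (E₀.mul_mem (E₀.inv_mem hσ') hσ) fun w hw => ?_
      rw [MulAut.mul_apply, h w hw, MulAut.inv_apply_self]
    exact (inv_mul_eq_one.1 h2).symm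
  have hbij : Function.Bijective (fun p : B.C W' × A =>
      (⟨t p.2 * p.1, hTT p.2 p.1 p.1.2, hcj p.2 p.1 p.1.2⟩ :
        {w : G // w ∈ SO.H82.TT B L x x' ∧ H75.cj w (B.b W') = B.b W})) := by
    constructor
    · rintro ⟨c, τ⟩ ⟨c', τ'⟩ h
      have h1 : t τ * c = t τ' * c' := congrArg Subtype.val h
      have h2 : (τ : MulAut V₀)⁻¹ = (τ' : MulAut V₀)⁻¹ := by
        refine huniq _ (hAE τ) _ (hAE τ') ?_
        intro v hv
        apply hB.inj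
        rw [← hkey τ c c.2 v hv, ← hkey τ' c' c'.2 v hv, h1]
      have h3 : τ = τ' := Subtype.ext (inv_injective h2)
      subst h3
      have h4 : c = c' := Subtype.ext (mul_left_cancel h1)
      rw [h4]
    · rintro ⟨w, hw, hwb⟩
      have hf : ∀ v ∈ W', ∃ u ∈ W, w * B.i v * w⁻¹ = B.i u := hfwd w hw
      obtain ⟨f, hf'⟩ : ∃ f : V₀ → V₀, ∀ v ∈ W', f v ∈ W ∧ w * B.i v * w⁻¹ = B.i (f v) := by
        refine ⟨fun v => if h : v ∈ W' then (hf v h).choose else 1, fun v hv => ?_⟩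
        simp only [dif_pos hv]
        exact (hf v hv).choose_spec
      obtain ⟨σ, hσ, hfσ, -⟩ := fuw ℓ M hM V₀ G E₀ hF B hB W W' w f
        (fun v hv => (hf' v hv).2) (fun v hv => (hf' v hv).1) (fun u hu => by
          obtain ⟨v, hv, e⟩ := hbwd w hw u hu
          refine ⟨v, hv, ?_⟩
          apply hB.inj
          rw [← (hf' v hv).2, e]) hwb
      have hσv : ∀ v ∈ W', w * B.i v * w⁻¹ = B.i (σ v) := by
        intro v hv
        rw [(hf' v hv).2, hfσ v hv]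
      have hσx : σ x' = x := by
        apply hB.inj
        rw [← hσv x' hx', hw.1]
      have hσL : ∀ s ∈ L, σ s.2.1 = s.1 * x ^ s.2.2 := by
        intro s hs
        apply hB.inj
        rw [← hσv _ (hq s hs), hw.2 s hs]
      have hmem : σ⁻¹ ∈ A := by
        rw [hA']
        refine ⟨E₀.inv_mem hσ, ?_, ?_⟩
        · rw [← hσx, MulAut.inv_apply_self]
        · intro s hs
          rw [← hσL s hs, MulAut.inv_apply_self]
      have hcm : (t ⟨σ⁻¹, hmem⟩)⁻¹ * w ∈ B.C W' := by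
        apply mem_of_conj
        intro v hv
        have h1 := ht ⟨σ⁻¹, hmem⟩ v
        have h2 : ((⟨σ⁻¹, hmem⟩ : A) : MulAut V₀)⁻¹ = σ := inv_inv σ
        rw [h2, ← hσv v hv] at h1
        have h3 : (t ⟨σ⁻¹, hmem⟩)⁻¹ * w * B.i v * ((t ⟨σ⁻¹, hmem⟩)⁻¹ * w)⁻¹ =
            (t ⟨σ⁻¹, hmem⟩)⁻¹ * (w * B.i v * w⁻¹) * t ⟨σ⁻¹, hmem⟩ := by group
        rw [h3, ← h1]
        group
      refine ⟨(⟨_, hcm⟩, ⟨σ⁻¹, hmem⟩), ?_⟩
      apply Subtype.ext
      change t ⟨σ⁻¹, hmem⟩ * ((t ⟨σ⁻¹, hmem⟩)⁻¹ * w) = w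
      rw [mul_inv_cancel_left]
  rw [← Nat.card_congr (Equiv.ofBijective _ hbij), Nat.card_prod]
  rfl

end count

omit [Finite G] in
/-- the `m`-th power of `i(x) s` -/
theorem pow_m {n m : ℕ} (hF : Fq ℓ V₀ E₀) (hPE : PE ℓ n m G) {W : Subgroup V₀} {x : V₀}
    (hx : x ∈ W) {s : G} (hs : s ∈ B.C W) (hr : Reg ℓ s) : (B.i x * s) ^ m = B.i x := by
  have h1 : Commute (B.i x) s := (memC B W s).1 hs x hx
  rw [h1.mul_pow, hPE.rg s hr, mul_one]
  refine (hPE.el (B.i x) ⟨1, ?_⟩).1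
  rw [pow_one, ← map_pow, hF.ex, map_one]

end blk

/-- GPD -/
theorem gpd (nsv : NsdStmt) (fuw : FudStmt) (cjt : CjdStmt) : GpdStmt := by
  intro ℓ _ M _ hM hℓ V₀ G _ _ _ _ E₀ hFr B hSy n m hPE L hL1 hL2 x x'
  classical
  have := Fintype.ofFinite G
  have := Fintype.ofFinite (B.C (p1 L))
  have := Fintype.ofFinite (B.C (p2 L))
  obtain ⟨W, hW⟩ : ∃ W, W = p1 L ⊔ Subgroup.zpowers x := ⟨_, rfl⟩
  obtain ⟨W', hW'⟩ : ∃ W', W' = p2 L ⊔ Subgroup.zpowers x' := ⟨_, rfl⟩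
  have hx : x ∈ W := by
    rw [hW]; exact Subgroup.mem_sup_right (Subgroup.mem_zpowers x)
  have hx' : x' ∈ W' := by
    rw [hW']; exact Subgroup.mem_sup_right (Subgroup.mem_zpowers x')
  have hWne : Rw E₀ W := by
    rw [hW]
    exact rw_mono hL1 le_sup_left
  have hWne' : Rw E₀ W' := by
    rw [hW']
    exact rw_mono hL2 le_sup_left
  have hreg : ∀ (U : Subgroup V₀) (s : G), bh B U s ≠ 0 → s ∈ B.C U ∧ Reg ℓ s := by
    intro U s hs
    constructor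
    · by_contra h
      exact hs (SO.H10L.bh_supp B U s h)
    · by_contra h
      exact hs (bh_sing hM hSy.toSb U s h)
  -- the terms
  have key : ∀ s w : G, (if (∀ r ∈ L, w * B.i r.2.1 * w⁻¹ =
        B.i r.1 * ((B.i x * s) ^ m) ^ r.2.2) then
      bh B W s * bh B W' (B.i x' * (w⁻¹ * (s⁻¹ * (B.i x)⁻¹) * w)) else 0) =
      if w ∈ SO.H82.TT B L x x' then bh B W s * bh B W' (w⁻¹ * s⁻¹ * w) else 0 := by
    intro s w
    by_cases hs : bh B W s = 0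
    · rw [hs, zero_mul, zero_mul, ite_self, ite_self]
    obtain ⟨hsC, hsR⟩ := hreg W s hs
    have hp : (B.i x * s) ^ m = B.i x := pow_m hFr hPE hx hsC hsR
    have hcond : (∀ r ∈ L, w * B.i r.2.1 * w⁻¹ = B.i r.1 * ((B.i x * s) ^ m) ^ r.2.2) ↔
        ∀ r ∈ L, w * B.i r.2.1 * w⁻¹ = B.i (r.1 * x ^ r.2.2) := by
      rw [hp]
      constructor
      · intro h r hr
        rw [h r hr, map_mul, map_zpow]
      · intro h r hr
        rw [h r hr, map_mul, map_zpow]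
    by_cases hc : ∀ r ∈ L, w * B.i r.2.1 * w⁻¹ = B.i (r.1 * x ^ r.2.2)
    · rw [if_pos (hcond.2 hc)]
      by_cases hxx : w * B.i x' * w⁻¹ = B.i x
      · rw [if_pos (show w ∈ SO.H82.TT B L x x' from ⟨hxx, hc⟩)]
        congr 2
        have h1 : Commute (B.i x) s := (memC B W s).1 hsC x hx
        have h2 : B.i x' = w⁻¹ * B.i x * w := by rw [← hxx]; group
        have h3 : B.i x * (s⁻¹ * (B.i x)⁻¹) = s⁻¹ := by
          rw [← mul_assoc, (h1.inv_right).eq, mul_inv_cancel_right]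
        rw [h2]
        calc w⁻¹ * B.i x * w * (w⁻¹ * (s⁻¹ * (B.i x)⁻¹) * w)
            = w⁻¹ * (B.i x * (s⁻¹ * (B.i x)⁻¹)) * w := by group
          _ = w⁻¹ * s⁻¹ * w := by rw [h3]
      · rw [if_neg (show w ∉ SO.H82.TT B L x x' from fun h => hxx h.1)]
        rw [mul_eq_zero]
        right
        by_contra hne
        obtain ⟨hC', hR'⟩ := hreg W' _ hne
        obtain ⟨s', hs'⟩ : ∃ s', s' = B.i x' * (w⁻¹ * (s⁻¹ * (B.i x)⁻¹) * w) := ⟨_, rfl⟩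
        rw [← hs'] at hC' hR'
        have h1 : B.i x'⁻¹ * s' = w⁻¹ * (s⁻¹ * (B.i x)⁻¹) * w := by
          rw [hs', map_inv, inv_mul_cancel_left]
        have h2 : (B.i x'⁻¹ * s') ^ m = B.i x'⁻¹ :=
          pow_m hFr hPE (W'.inv_mem hx') hC' hR'
        have h3 : (s⁻¹ * (B.i x)⁻¹) ^ m = (B.i x)⁻¹ := by
          rw [← mul_inv_rev, inv_pow, hp]
        have h4 : (w⁻¹ * (s⁻¹ * (B.i x)⁻¹) * w) ^ m = w⁻¹ * (B.i x)⁻¹ * w := by
          have h5 := conj_pow (a := w⁻¹) (b := s⁻¹ * (B.i x)⁻¹) (i := m)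
          rw [inv_inv, h3] at h5
          exact h5
        rw [h1, h4, map_inv] at h2
        apply hxx
        have h6 : B.i x' = w⁻¹ * B.i x * w := by
          rw [← inv_inj, ← h2]
          group
        rw [h6]
        group
    · rw [if_neg (fun h => hc (hcond.1 h)), if_neg (fun h => hc h.2)]
  -- the functions `fc`
  have hf1 : ∀ g, fc B (p1 L) x g = (Nat.card (B.C W) : ℂ)⁻¹ *
      ∑ z : B.C (p1 L), bh B W ((B.i x)⁻¹ * ((z : G)⁻¹ * g * z)) := by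
    intro g
    unfold fc
    rw [finsum_eq_sum_of_fintype, hW]
  have hf2 : ∀ g, fc B (p2 L) x'⁻¹ g = (Nat.card (B.C W') : ℂ)⁻¹ *
      ∑ z : B.C (p2 L), bh B W' (B.i x' * ((z : G)⁻¹ * g * z)) := by
    intro g
    unfold fc
    rw [finsum_eq_sum_of_fintype, Subgroup.zpowers_inv, ← hW', map_inv, inv_inv]
  obtain ⟨K, hK⟩ : ∃ K : ℂ, K = ∑ p : G × G, if p.2 ∈ SO.H82.TT B L x x' then
    bh B W p.1 * bh B W' (p.2⁻¹ * p.1⁻¹ * p.2) else 0 := ⟨_, rfl⟩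
  -- the substitution
  have hsub : ∀ (z : B.C (p1 L)) (z' : B.C (p2 L)), (∑ w : G × G,
      if w ∈ {w : G × G | ∀ s ∈ L, w.2 * B.i s.2.1 * w.2⁻¹ = B.i s.1 * (w.1 ^ m) ^ s.2.2} then
        bh B W ((B.i x)⁻¹ * ((z : G)⁻¹ * w.1 * z)) *
          bh B W' (B.i x' * ((z' : G)⁻¹ * (w.2⁻¹ * w.1⁻¹ * w.2) * z')) else 0) = K := by
    intro z z'
    let e : G × G ≃ G × G :=
      { toFun := fun p => ((z : G) * (B.i x * p.1) * (z : G)⁻¹, (z : G) * p.2 * (z' : G)⁻¹)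
        invFun := fun p => ((B.i x)⁻¹ * ((z : G)⁻¹ * p.1 * z), (z : G)⁻¹ * p.2 * z')
        left_inv := fun p => Prod.ext (by dsimp only; group) (by dsimp only; group)
        right_inv := fun p => Prod.ext (by dsimp only; group) (by dsimp only; group) }
    rw [hK, ← e.sum_comp]
    refine Finset.sum_congr rfl fun p _ => ?_
    rw [← key p.1 p.2]
    have e1 : (e p).1 = (z : G) * (B.i x * p.1) * (z : G)⁻¹ := rfl
    have e2 : (e p).2 = (z : G) * p.2 * (z' : G)⁻¹ := rfl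
    have hc : (e p ∈ {w : G × G | ∀ s ∈ L, w.2 * B.i s.2.1 * w.2⁻¹ =
        B.i s.1 * (w.1 ^ m) ^ s.2.2}) ↔ ∀ r ∈ L, p.2 * B.i r.2.1 * p.2⁻¹ =
        B.i r.1 * ((B.i x * p.1) ^ m) ^ r.2.2 := by
      rw [Set.mem_setOf_eq, e1, e2]
      refine forall₂_congr fun r hr => ?_
      have h1 : r.1 ∈ p1 L := Subgroup.subset_closure ⟨r, hr, rfl⟩
      have h2 : r.2.1 ∈ p2 L := Subgroup.subset_closure ⟨r, hr, rfl⟩
      have h3 := conj_of_mem B z.2 h1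
      have h4 := conj_of_mem B ((B.C (p2 L)).inv_mem z'.2) h2
      rw [inv_inv] at h4
      have h5 : (z : G) * p.2 * (z' : G)⁻¹ * B.i r.2.1 * ((z : G) * p.2 * (z' : G)⁻¹)⁻¹ =
          (z : G) * (p.2 * ((z' : G)⁻¹ * B.i r.2.1 * z') * p.2⁻¹) * (z : G)⁻¹ := by group
      have h6 : ((z : G) * (B.i x * p.1) * (z : G)⁻¹) ^ m =
          (z : G) * (B.i x * p.1) ^ m * (z : G)⁻¹ := conj_pow
      rw [h5, h4, h6, conj_zpow]
      constructor
      · intro h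
        have h7 : p.2 * B.i r.2.1 * p.2⁻¹ = (z : G)⁻¹ * ((z : G) *
          (p.2 * B.i r.2.1 * p.2⁻¹) * (z : G)⁻¹) * z := by group
        rw [h7, h]
        have h8 : (z : G)⁻¹ * (B.i r.1 * ((z : G) * ((B.i x * p.1) ^ m) ^ r.2.2 * (z : G)⁻¹)) * z =
          ((z : G)⁻¹ * B.i r.1 * z) * ((B.i x * p.1) ^ m) ^ r.2.2 := by group
        rw [h8]
        congr 1
        conv_lhs => rw [← h3]
        group
      · intro h
        rw [h]
        conv_rhs => rw [← h3]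
        group
    by_cases h : ∀ r ∈ L, p.2 * B.i r.2.1 * p.2⁻¹ = B.i r.1 * ((B.i x * p.1) ^ m) ^ r.2.2
    · rw [if_pos (hc.2 h), if_pos h, e1, e2]
      congr 2
      · group
      · group
    · rw [if_neg (fun h' => h (hc.1 h')), if_neg h]
  -- the value of `K`
  have hKval : K = (Nat.card {w : G // w ∈ SO.H82.TT B L x x' ∧ H75.cj w (B.b W') = B.b W} : ℂ) *
      bh B W 1 := by
    rw [hK, Fintype.sum_prod_type_right]
    have h1 : ∀ w : G, (∑ s : G, if w ∈ SO.H82.TT B L x x' then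
        bh B W s * bh B W' (w⁻¹ * s⁻¹ * w) else 0) =
        if w ∈ SO.H82.TT B L x x' ∧ H75.cj w (B.b W') = B.b W then bh B W 1 else 0 := by
      intro w
      by_cases hw : w ∈ SO.H82.TT B L x x'
      · simp only [if_pos hw]
        have hC : ∀ y, y ∈ B.C W ↔ w⁻¹ * y * w ∈ B.C W' := by
          rw [hW, hW']
          exact TT_C hw
        rw [← finsum_eq_sum_of_fintype, prod_eq hSy.toSb hC]
        by_cases hb : H75.cj w (B.b W') = B.b W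
        · rw [if_pos hb, if_pos ⟨hw, hb⟩]
        · rw [if_neg hb, if_neg (fun h => hb h.2)]
      · rw [if_neg (fun h => hw h.1)]
        refine Finset.sum_eq_zero fun s _ => ?_
        rw [if_neg hw]
    rw [Finset.sum_congr rfl fun w _ => h1 w, ← Finset.sum_filter, Finset.sum_const, nsmul_eq_mul,
      Nat.card_eq_fintype_card, Fintype.card_subtype]
  have hcard := card_TT (B := B) (L := L) (x := x) (x' := x') fuw cjt hM hℓ hFr hSy.toSb
    (by rw [← hW']; exact hWne')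
  rw [← hW, ← hW'] at hcard
  have hbh : bh B W 1 = ℓ ^ 2 * B.D W ^ 2 / Nat.card (B.C W) :=
    (nsv ℓ M hM hℓ V₀ G E₀ hFr B hSy W hWne).2.2.2.2.2.2
  -- assembly
  rw [← hW, finsum_mem_def, finsum_eq_sum_of_fintype]
  have hexp : ∀ w : G × G, Set.indicator {w : G × G | ∀ s ∈ L, w.2 * B.i s.2.1 * w.2⁻¹ =
      B.i s.1 * (w.1 ^ m) ^ s.2.2} (fun w : G × G => fc B (p1 L) x w.1 *
        fc B (p2 L) x'⁻¹ (w.2⁻¹ * w.1⁻¹ * w.2)) w =
      (Nat.card (B.C W) : ℂ)⁻¹ * (Nat.card (B.C W') : ℂ)⁻¹ * ∑ z : B.C (p1 L),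
        ∑ z' : B.C (p2 L),
        if w ∈ {w : G × G | ∀ s ∈ L, w.2 * B.i s.2.1 * w.2⁻¹ = B.i s.1 * (w.1 ^ m) ^ s.2.2} then
        bh B W ((B.i x)⁻¹ * ((z : G)⁻¹ * w.1 * z)) *
          bh B W' (B.i x' * ((z' : G)⁻¹ * (w.2⁻¹ * w.1⁻¹ * w.2) * z')) else 0 := by
    intro w
    rw [Set.indicator_apply]
    by_cases h : w ∈ {w : G × G | ∀ s ∈ L, w.2 * B.i s.2.1 * w.2⁻¹ = B.i s.1 * (w.1 ^ m) ^ s.2.2}
    · simp only [if_pos h]
      rw [hf1, hf2, mul_mul_mul_comm, Finset.sum_mul_sum]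
    · simp only [if_neg h, Finset.sum_const_zero, mul_zero]
  rw [Finset.sum_congr rfl fun w _ => hexp w, ← Finset.mul_sum, Finset.sum_comm]
  have hin : ∀ z : B.C (p1 L), (∑ w : G × G, ∑ z' : B.C (p2 L),
        if w ∈ {w : G × G | ∀ s ∈ L, w.2 * B.i s.2.1 * w.2⁻¹ = B.i s.1 * (w.1 ^ m) ^ s.2.2} then
        bh B W ((B.i x)⁻¹ * ((z : G)⁻¹ * w.1 * z)) *
          bh B W' (B.i x' * ((z' : G)⁻¹ * (w.2⁻¹ * w.1⁻¹ * w.2) * z')) else 0) =
      Nat.card (B.C (p2 L)) * K := by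
    intro z
    rw [Finset.sum_comm, Finset.sum_congr rfl fun z' _ => hsub z z', Finset.sum_const,
      nsmul_eq_mul, Nat.card_eq_fintype_card]
    rfl
  rw [Finset.sum_congr rfl fun z _ => hin z, Finset.sum_const, nsmul_eq_mul, hKval, hcard, hbh]
  have hn1 : (Nat.card (B.C W) : ℂ) ≠ 0 := by
    exact_mod_cast (Nat.card_pos (α := B.C W)).ne'
  have hn2 : (Nat.card (B.C W') : ℂ) ≠ 0 := by
    exact_mod_cast (Nat.card_pos (α := B.C W')).ne'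
  have hcu : (Finset.univ : Finset (B.C (p1 L))).card = Nat.card (B.C (p1 L)) := by
    rw [Nat.card_eq_fintype_card]
    rfl
  rw [hcu]
  push_cast
  field_simp

end Pool.Agent.PP.SD.H82
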